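import Pool.Agent.Q78.WI.Stm

/-!
# The equation for the time derivative (WI-C5)
-/

set_option autoImplicit false

open MeasureTheory ProbabilityTheory Filter Topology Set
open scoped NNReal InnerProductSpace Matrix

namespace Pool.Agent.Q176.WI

open Pool.Agent.Q78.WI

universe u

theorem c5 (hC1 : S_C1.{u}) (hC2 : S_C2.{u}) (hC3 : S_C3.{u}) (hC4 : S_C4) : S_C5.{u} := by
  intro H _ _ _ T hT Q hQ α d g y hg u hu S hS s hs
  obtain ⟨hpos, -, -, -⟩ := hC2 H T hT Q hQ α d g u hu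
  obtain ⟨hdet, hpsd⟩ := hpos s hs
  have h1s : (0 : ℝ) ≤ 1 - s := by linarith [hs.2]
  -- abbreviations
  set M : ℝ → Matrix (Fin d) (Fin d) ℝ := fun s => u⁻¹ + gram T Q g (1 - s) with hM
  set ψ : Matrix (Fin d) (Fin d) ℝ := (M s)⁻¹ with hψ
  set G : Fin d → H := fun i => T (1 - s) (g i) with hG
  set Y : Fin d → H := fun i => T (1 - s) (y i) with hY
  set q : Matrix (Fin d) (Fin d) ℝ := Matrix.of fun i j => ⟪Q (G i), G j⟫_ℝ with hq
  have hψpsi : psi T Q g u s = ψ := rfl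
  have hψs : ∀ i j, ψ i j = ψ j i := by
    intro i j
    have h := hpsd.isHermitian.apply i j
    rw [hψpsi] at h
    simpa using h.symm
  have hSs : ∀ x z : H, ⟪S x, z⟫_ℝ = ⟪S z, x⟫_ℝ := by
    intro x z
    have h := hS.isSymmetric x z
    rw [real_inner_comm x (S z)]
    exact h
  have hQs : ∀ x z : H, ⟪Q x, z⟫_ℝ = ⟪Q z, x⟫_ℝ := by
    intro x z
    have h := hQ.isSymmetric x z
    rw [real_inner_comm x (Q z)]
    exact h
  -- derivative of `G`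
  have hGd : ∀ i, HasDerivWithinAt (fun s => T (1 - s) (g i)) (-(Y i)) (Icc (0 : ℝ) 1) s := by
    intro i
    have h1 := (hC1 H T hT (g i) (y i) (hg i)).2 (1 - s) h1s
    have h2 : HasDerivWithinAt (fun s : ℝ => 1 - s) (-1 : ℝ) (Icc (0 : ℝ) 1) s := by
      exact (hasDerivWithinAt_id s (Icc (0 : ℝ) 1)).const_sub 1
    have h3 := HasDerivWithinAt.scomp (t' := Ici (0 : ℝ)) s h1 h2 (fun r hr => by
      simp only [mem_Ici]
      linarith [hr.2])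
    simpa [Function.comp_def, hY] using h3
  -- derivative of `M`
  have hMd : ∀ i j, HasDerivWithinAt (fun s => M s i j) ((-(2 : ℝ) • q) i j) (Icc (0 : ℝ) 1) s := by
    intro i j
    have h1 := (hC3 H T hT Q d g s hs i j).const_add (u⁻¹ i j)
    have h2 : (-(2 : ℝ) • q) i j = -(2 * ⟪Q (T (1 - s) (g i)), T (1 - s) (g j)⟫_ℝ) := by
      simp [hq, hG]
    rw [h2]
    exact h1
  obtain ⟨hinv, hdetd⟩ := hC4 d M (-(2 : ℝ) • q) (Icc (0 : ℝ) 1) s hMd hdet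
  -- derivative of `ψ`
  have hψd : ∀ i j, HasDerivWithinAt (fun s => psi T Q g u s i j) (2 * (ψ * q * ψ) i j)
      (Icc (0 : ℝ) 1) s := by
    intro i j
    have h1 := hinv i j
    have h2 : -((M s)⁻¹ * (-(2 : ℝ) • q) * (M s)⁻¹) i j = 2 * (ψ * q * ψ) i j := by
      simp [hψ]
    rw [h2] at h1
    exact h1
  -- derivative of `fac`
  have hfd : HasDerivWithinAt (fun s => fac α T Q g u s)
      (fac α T Q g u s * (α * (ψ * q).trace)) (Icc (0 : ℝ) 1) s := by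
    have h1 := hdetd.rpow_const (p := -(α / 2)) (Or.inl hdet.ne')
    have h2 : (M s).det * ((M s)⁻¹ * (-(2 : ℝ) • q)).trace * (-(α / 2)) *
        (M s).det ^ (-(α / 2) - 1) = fac α T Q g u s * (α * (ψ * q).trace) := by
      have h3 : (M s).det * (M s).det ^ (-(α / 2) - 1) = fac α T Q g u s := by
        rw [mul_comm, ← Real.rpow_add_one hdet.ne']
        simp [fac]
      have h4 : ((M s)⁻¹ * (-(2 : ℝ) • q)).trace = -2 * (ψ * q).trace := by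
        rw [Matrix.mul_smul, Matrix.trace_smul, smul_eq_mul, hψ]
      rw [← h3, h4]
      ring
    rw [h2] at h1
    exact h1
  -- derivative of the inner products
  have hid : ∀ i j, HasDerivWithinAt (fun s => ⟪S (T (1 - s) (g i)), T (1 - s) (g j)⟫_ℝ)
      (-⟪S (G i), Y j⟫_ℝ - ⟪S (Y i), G j⟫_ℝ) (Icc (0 : ℝ) 1) s := by
    intro i j
    have h1 : HasDerivWithinAt (fun s => S (T (1 - s) (g i))) (S (-(Y i))) (Icc (0 : ℝ) 1) s :=
      S.hasFDerivAt.comp_hasDerivWithinAt s (hGd i)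
    have h2 := h1.inner ℝ (hGd j)
    have h3 : ⟪S (T (1 - s) (g i)), -(Y j)⟫_ℝ + ⟪S (-(Y i)), T (1 - s) (g j)⟫_ℝ =
        -⟪S (G i), Y j⟫_ℝ - ⟪S (Y i), G j⟫_ℝ := by
      simp [hG, sub_eq_add_neg]
    rw [h3] at h2
    exact h2
  -- derivative of `tq`
  have htd : HasDerivWithinAt (fun s => tq (psi T Q g u s) S (fun i => T (1 - s) (g i)))
      (∑ i, ∑ j, (2 * (ψ * q * ψ) i j * ⟪S (G i), G j⟫_ℝ +
        ψ i j * (-⟪S (G i), Y j⟫_ℝ - ⟪S (Y i), G j⟫_ℝ))) (Icc (0 : ℝ) 1) s := by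
    unfold tq
    refine HasDerivWithinAt.fun_sum fun i _ => HasDerivWithinAt.fun_sum fun j _ => ?_
    exact (hψd i j).mul (hid i j)
  -- algebra
  have e1 : (ψ * q).trace = tq ψ Q G := by
    simp only [Matrix.trace, Matrix.diag_apply, Matrix.mul_apply, tq, hq, Matrix.of_apply]
    refine Finset.sum_congr rfl fun i _ => Finset.sum_congr rfl fun j _ => ?_
    rw [hQs]
  have e2 : ∑ i, ∑ j, (ψ * q * ψ) i j * ⟪S (G i), G j⟫_ℝ =
      ∑ i, ∑ j, ∑ k, ∑ l, ψ i j * ψ k l * (⟪S (G i), G k⟫_ℝ * ⟪Q (G j), G l⟫_ℝ) := by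
    refine Finset.sum_congr rfl fun i _ => ?_
    rw [Finset.sum_comm (f := fun j k => ∑ l, ψ i j * ψ k l *
      (⟪S (G i), G k⟫_ℝ * ⟪Q (G j), G l⟫_ℝ))]
    refine Finset.sum_congr rfl fun k _ => ?_
    rw [Finset.sum_comm (f := fun j l => ψ i j * ψ k l *
      (⟪S (G i), G k⟫_ℝ * ⟪Q (G j), G l⟫_ℝ))]
    rw [Matrix.mul_apply, Finset.sum_mul]
    refine Finset.sum_congr rfl fun l _ => ?_
    rw [Matrix.mul_apply, Finset.sum_mul, Finset.sum_mul]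
    refine Finset.sum_congr rfl fun j _ => ?_
    rw [hψs l k, hq, Matrix.of_apply]
    ring
  have e3 : ∑ i, ∑ j, ψ i j * ⟪S (G i), Y j⟫_ℝ = ∑ i, ∑ j, ψ i j * ⟪S (Y i), G j⟫_ℝ := by
    rw [Finset.sum_comm]
    refine Finset.sum_congr rfl fun i _ => Finset.sum_congr rfl fun j _ => ?_
    rw [hSs (G j) (Y i), hψs j i]
  have e4 : ∑ i, ∑ j, (2 * (ψ * q * ψ) i j * ⟪S (G i), G j⟫_ℝ +
        ψ i j * (-⟪S (G i), Y j⟫_ℝ - ⟪S (Y i), G j⟫_ℝ)) =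
      2 * (∑ i, ∑ j, ∑ k, ∑ l, ψ i j * ψ k l * (⟪S (G i), G k⟫_ℝ * ⟪Q (G j), G l⟫_ℝ)) -
        2 * ∑ i, ∑ j, ψ i j * ⟪S (Y i), G j⟫_ℝ := by
    rw [← e2]
    have e5 : ∑ i, ∑ j, (2 * (ψ * q * ψ) i j * ⟪S (G i), G j⟫_ℝ +
        ψ i j * (-⟪S (G i), Y j⟫_ℝ - ⟪S (Y i), G j⟫_ℝ)) =
        2 * (∑ i, ∑ j, (ψ * q * ψ) i j * ⟪S (G i), G j⟫_ℝ) -
          ∑ i, ∑ j, ψ i j * ⟪S (G i), Y j⟫_ℝ - ∑ i, ∑ j, ψ i j * ⟪S (Y i), G j⟫_ℝ := by
      rw [Finset.mul_sum, ← Finset.sum_sub_distrib, ← Finset.sum_sub_distrib]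
      refine Finset.sum_congr rfl fun i _ => ?_
      rw [Finset.mul_sum, ← Finset.sum_sub_distrib, ← Finset.sum_sub_distrib]
      refine Finset.sum_congr rfl fun j _ => ?_
      ring
    rw [e5, e3]
    ring
  have hfin := hfd.mul htd.neg.exp
  refine hfin.congr_deriv ?_
  rw [e4, e1]
  change _ = -(fac α T Q g u s * (Real.exp (-tq ψ S G) *
    (-(α * tq ψ Q G) - 2 * ∑ i, ∑ j, ψ i j * ⟪S (Y i), G j⟫_ℝ
      + 2 * ∑ i, ∑ j, ∑ k, ∑ l, ψ i j * ψ k l * (⟪S (G i), G k⟫_ℝ * ⟪Q (G j), G l⟫_ℝ))))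
  change fac α T Q g u s * (α * tq ψ Q G) * Real.exp (-tq ψ S G) +
    fac α T Q g u s * (Real.exp (-tq ψ S G) * _) = _
  ring

end Pool.Agent.Q176.WI
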